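import Pool.Agent.Helper31.TMS.Goals

/-!
# The simulation of multitape Turing machines
-/

namespace Pool.Agent.Helper20.TMS

open Pool.Agent.Helper65.LinSpace Pool.Agent.Helper78.Mpc Pool.Agent.Helper28.Ram
open Pool.Agent.Helper65.OH (letW mv)
open Pool.Agent.Helper20.MH (MultiHead Conf)
open Pool.Agent.Helper31.TMS

variable {k : ℕ}

/-- The foldl of the updates, if the head number `i` is on the tape number `i`. -/
theorem foldl_upd {D K : ℕ} (tp : Fin K → Fin K) (htp : ∀ j, tp j = j) (h : Fin K → Fin D → ℤ)
    (x : Fin K → List Bool) : ∀ (l : List (Fin K)), l.Nodup →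
    ∀ (M : Fin K → (Fin D → ℤ) → List Bool) (j : Fin K),
    l.foldl (fun M i => Function.update M (tp i)
      (Function.update (M (tp i)) (h i) (x i))) M j =
      if j ∈ l then Function.update (M j) (h j) (x j) else M j := by
  intro l
  induction l with
  | nil => intro _ M j; simp
  | cons a l ih =>
    intro hl M j
    rw [List.foldl_cons, ih (List.nodup_cons.1 hl).2]
    have ha := (List.nodup_cons.1 hl).1
    rw [htp a]
    by_cases hj : j = a
    · subst hj
      simp [ha]
    · have h1 : (j ∈ a :: l) ↔ j ∈ l := by simp [hj]
      simp only [h1, Function.update_of_ne hj]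

theorem inp_le (M : TM k) (w : List Bool) (t : ℕ) : (M.run w t).inp ≤ w.length + 1 := by
  induction t with
  | zero => exact Nat.zero_le _
  | succ t ih =>
    show ((M.next w (M.run w t)).getD (M.run w t)).inp ≤ _
    unfold TM.next
    cases M.step (M.run w t).state (inputSym w (M.run w t).inp)
        (fun i => (M.run w t).tape i ((M.run w t).head i)) with
    | none => exact ih
    | some x =>
      simp only [Option.map_some, Option.getD_some]
      cases x.2.1 with
      | left => exact (Nat.sub_le _ _).trans ih
      | stay => exact ih
      | right => exact min_le_right _ _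

theorem pos_eq (w : List Bool) (p : ℕ) (hp : p ≤ w.length + 1) (d : Dir) :
    pos (inputSym w p) d p = inputMove w d p := by
  cases d with
  | left => rfl
  | stay => rfl
  | right =>
    show (if p = 0 then 1 else if inputSym w p = none then p else p + 1) =
      min (p + 1) (w.length + 1)
    by_cases h0 : p = 0
    · subst h0; simp
    · rw [if_neg h0]
      unfold inputSym
      rw [if_neg h0]
      by_cases h1 : p = w.length + 1
      · have h2 : w[p - 1]? = none := by
          rw [List.getElem?_eq_none_iff]; omega
        rw [if_pos h2]
        omega
      · have h2 : w[p - 1]? ≠ none := by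
          rw [Ne, List.getElem?_eq_none_iff]; omega
        rw [if_neg h2]
        omega

theorem run_succ_none {M : TM k} {w : List Bool} {t : ℕ}
    (h : M.step (M.run w t).state (inputSym w (M.run w t).inp)
        (fun i => (M.run w t).tape i ((M.run w t).head i)) = none) :
    M.run w (t + 1) = M.run w t ∧ M.next w (M.run w t) = none := by
  have h1 : M.next w (M.run w t) = none := by
    unfold TM.next
    rw [h]
    rfl
  refine ⟨?_, h1⟩
  show (M.next w (M.run w t)).getD (M.run w t) = _
  rw [h1]
  rfl

theorem run_succ_some {M : TM k} {w : List Bool} {t : ℕ} {x}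
    (h : M.step (M.run w t).state (inputSym w (M.run w t).inp)
        (fun i => (M.run w t).tape i ((M.run w t).head i)) = some x) :
    M.run w (t + 1) =
    { state := x.1
      inp := inputMove w x.2.1 (M.run w t).inp
      tape := fun i => Function.update ((M.run w t).tape i) ((M.run w t).head i) (x.2.2 i).1
      head := fun i => (M.run w t).head i + (x.2.2 i).2.toInt } ∧
    M.next w (M.run w t) ≠ none := by
  have h1 : M.next w (M.run w t) = some
    { state := x.1
      inp := inputMove w x.2.1 (M.run w t).inp
      tape := fun i => Function.update ((M.run w t).tape i) ((M.run w t).head i) (x.2.2 i).1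
      head := fun i => (M.run w t).head i + (x.2.2 i).2.toInt } := by
    unfold TM.next
    rw [h]
    rfl
  constructor
  · show (M.next w (M.run w t)).getD (M.run w t) = _
    rw [h1]
    rfl
  · rw [h1]
    simp

/-- **SIM.** -/
theorem sim : SIM_stmt := by
  classical
  intro k M code A hb hA w y t
  induction t with
  | zero =>
    refine ⟨⟨false, fun _ => Dir.stay, hA.start, ?_⟩, fun j => ?_, fun j z => ?_⟩
    · simp
    · funext z; rfl
    · show ([] : List Bool) = code M.blank
      exact hb.symm
  | succ t ih =>
    obtain ⟨⟨f, d, hq, hf⟩, hh, hM⟩ := ih
    set c := A.conf w y t with hc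
    set R := M.run w t with hR
    -- what the machine reads
    have hp : R.inp ≤ w.length + 1 := inp_le M w t
    have haddr : A.addr c.q = (R.inp - 1).bits := by rw [hq]; exact hA.addr _ _ _ _
    have hrd : ∀ i, A.rd c i = code (R.tape i (R.head i)) := by
      intro i
      show c.M (A.tape i) (c.h i) = _
      rw [hA.tape, hM, hh]
    have hinp : A.inp w y c.q (A.rd c) = enc M code
        (f, d, R.state, w[R.inp - 1]?, y[R.inp - 1]?, fun i => R.tape i (R.head i)) R.inp := by
      unfold MultiHead.inp enc
      rw [haddr, bval_bits, hq]
      simp only [hrd]
    have hsym : (if R.inp = 0 then none else w[R.inp - 1]?) = inputSym w R.inp := rfl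
    have hnx : A.nx w y c = res M R.state (inputSym w R.inp) (fun i => R.tape i (R.head i)) R.inp := by
      unfold MultiHead.nx
      rw [hinp, hA.next]
      rfl
    have hwr : ∀ j, A.wr w y c j = code (sym M R.state (inputSym w R.inp)
        (fun i => R.tape i (R.head i)) j) := by
      intro j
      unfold MultiHead.wr
      rw [hinp, hA.write]
      rfl
    have hMs : ∀ j, (A.conf w y (t + 1)).M j = Function.update (c.M j) (c.h j) (A.wr w y c j) := by
      intro j
      show (List.finRange k).foldl (fun M i => Function.update M (A.tape i)
        (Function.update (M (A.tape i)) (c.h i) (A.wr w y c i))) c.M j = _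
      rw [foldl_upd A.tape hA.tape _ _ _ (List.nodup_finRange k)]
      simp
    have hqs : (A.conf w y (t + 1)).q = A.nx w y c := rfl
    have hhs : ∀ j z, (A.conf w y (t + 1)).h j z = c.h j z + mv (A.nx w y c) (j * 1 + z) := by
      intro j z
      rfl
    cases hs : M.step R.state (inputSym w R.inp) (fun i => R.tape i (R.head i)) with
    | none =>
      obtain ⟨hrun, hnone⟩ := run_succ_none (M := M) (w := w) (t := t) hs
      have hres : A.nx w y c = stW (k := k) (decide (R.state ∈ M.accept)) (fun _ => Dir.stay)
          (idx M R.state) R.inp := by
        rw [hnx]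
        unfold res
        rw [hs]
      rw [hrun, ← hR]
      refine ⟨⟨_, _, by rw [hqs]; exact hres, ?_⟩, fun j => ?_, fun j z => ?_⟩
      · rw [decide_eq_true_iff]
        constructor
        · intro h
          exact ⟨t, rfl, hnone, h⟩
        · rintro ⟨u, hu, -, h⟩
          obtain rfl : t = u := by omega
          exact h
      · funext z
        rw [hhs, hres, hh]
        have hz : (j : ℕ) * 1 + (z : ℕ) = (j : ℕ) := by
          have := z.2
          omega
        rw [hz, mv_stW]
        simp [Dir.toInt]
      · rw [hMs, hwr, hh]
        have h1 : sym M R.state (inputSym w R.inp) (fun i => R.tape i (R.head i)) j =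
            R.tape j (R.head j) := by
          unfold sym
          rw [hs]
        rw [h1]
        by_cases hz : z = fun _ => R.head j
        · rw [hz, Function.update_self]
        · rw [Function.update_of_ne hz, hM]
    | some x =>
      obtain ⟨hrun, hnone⟩ := run_succ_some (M := M) (w := w) (t := t) hs
      have hres : A.nx w y c = stW false (fun j => (x.2.2 j).2) (idx M x.1)
          (inputMove w x.2.1 R.inp) := by
        rw [hnx]
        unfold res
        rw [hs]
        simp only [pos_eq w R.inp hp]
      rw [hrun, ← hR]
      refine ⟨⟨_, _, by rw [hqs]; exact hres, ?_⟩, fun j => ?_, fun j z => ?_⟩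
      · constructor
        · intro h
          exact absurd h (by simp)
        · rintro ⟨u, hu, h, -⟩
          obtain rfl : t = u := by omega
          exact absurd h hnone
      · funext z
        rw [hhs, hres, hh]
        have hz : (j : ℕ) * 1 + (z : ℕ) = (j : ℕ) := by
          have := z.2
          omega
        rw [hz, mv_stW]
      · rw [hMs, hwr, hh]
        have h1 : sym M R.state (inputSym w R.inp) (fun i => R.tape i (R.head i)) j =
            (x.2.2 j).1 := by
          unfold sym
          rw [hs]
        rw [h1]
        show _ = code (Function.update (R.tape j) (R.head j) (x.2.2 j).1 (z 0))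
        by_cases hz : z 0 = R.head j
        · have hz2 : z = fun _ => R.head j := by
            funext i
            rw [Subsingleton.elim i 0]
            exact hz
          rw [hz, hz2, Function.update_self, Function.update_self]
        · have hz2 : z ≠ fun _ => R.head j := by
            intro h
            exact hz (by rw [h])
          rw [Function.update_of_ne hz, Function.update_of_ne hz2, hM]

end Pool.Agent.Helper20.TMS
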