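import Pool.Agent.Helper20.TMS.Sim

/-!
# Multitape Turing machines within the bounds of machines with several heads
-/

namespace Pool.Agent.Helper20.TMS

open Pool.Agent.Helper65.LinSpace Pool.Agent.Helper78.Mpc Pool.Agent.Helper28.Ram
open Pool.Agent.Helper65.OH (letW mv)
open Pool.Agent.Helper20.MH (MultiHead Conf)
open Pool.Agent.Helper28.OHS (Box intW cellW)
open Pool.Agent.Helper81.Sus2 (Decomp)
open Pool.Agent.Helper31.TMS
open Pool.Agent.Helper31 (MHS.Within MHS.Short)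

variable {k : ℕ}

theorem bits_length_le {p n : ℕ} (h : p ≤ n + 1) : p.bits.length ≤ Nat.log 2 n + 2 := by
  rw [Nat.size_eq_bits_len]
  rw [Nat.size_le]
  have h1 : n < 2 ^ (Nat.log 2 n + 1) := Nat.lt_pow_succ_log_self (by norm_num) n
  rw [pow_succ] at h1 ⊢
  rw [pow_succ]
  omega

theorem sd_length (u : List Bool) : (sd u).length = 2 * u.length + 1 := by
  induction u with
  | nil => rfl
  | cons b u ih =>
    show (sd u).length + 1 + 1 = _
    rw [ih, List.length_cons]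
    ring

theorem stW_length {f : Bool} {d : Fin k → Dir} {σ p n N : ℕ} (h : p ≤ n + 1) (hσ : σ < N) :
    (stW f d σ p).length ≤ Nat.log 2 n + (2 * k + 2 * N.bits.length + 4) := by
  unfold stW
  rw [List.length_cons, List.length_append, List.length_append, mvW_length, sd_length]
  have h1 := bits_length_le h
  have h2 : σ.bits.length ≤ N.bits.length := by
    rw [Nat.size_eq_bits_len, Nat.size_eq_bits_len]
    exact Nat.size_le_size hσ.le
  omega

theorem idx_lt (M : TM k) : ∃ N, ∀ σ, idx M σ < N := by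
  have := M.finState
  exact ⟨Nat.card M.State, fun σ => (Finite.equivFin M.State σ).2⟩

theorem code_le (M : TM k) (code : M.Sym → List Bool) : ∃ m, ∀ x, (code x).length ≤ m := by
  have := M.finSym
  obtain ⟨m, hm⟩ := (Set.finite_range fun x => (code x).length).bddAbove
  exact ⟨m, fun x => hm ⟨x, rfl⟩⟩

/-- The fits of the simulation. -/
theorem fits (M : TM k) (code : M.Sym → List Bool) (A : MultiHead 1 k)
    (hb : code M.blank = []) (hA : Sm M code A) :
    ∃ c₀ : ℕ, ∀ (w y : List Bool) (t : ℕ), A.Fits w y t (c₀ + Nat.log 2 w.length) := by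
  obtain ⟨N, hN⟩ := idx_lt M
  obtain ⟨m, hm⟩ := code_le M code
  refine ⟨2 * k + 2 * N.bits.length + 4 + m, fun w y t u _ => ?_⟩
  obtain ⟨⟨f, d, hq, -⟩, -, hM⟩ := sim M code A hb hA w y u
  have hp := inp_le M w u
  refine ⟨?_, ?_, fun i z => ?_⟩
  · rw [hq]
    have := stW_length (f := f) (d := d) hp (hN (M.run w u).state)
    omega
  · rw [hq, hA.addr]
    have : ((M.run w u).inp - 1).bits.length ≤ Nat.log 2 w.length + 2 := bits_length_le (by omega)
    omega
  · rw [hM]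
    have := hm ((M.run w u).tape i (z 0))
    omega

theorem cellW_one (p : Fin 1 → ℤ) : cellW p = sd (intW (p 0)) := by
  unfold cellW
  simp

/-- **WTH.** -/
theorem wth : WTH_stmt := by
  intro k M code A E c C hb hA
  obtain ⟨c₀, hc₀⟩ := fits M code A hb hA
  refine ⟨((c₀ : ℝ) + 2) * (|C| + C ^ 2) + |C|, ?_⟩
  rintro w ⟨t, b, a, r, hacc, hbox, hstr, h1, h2, h3⟩
  have hsim := sim M code A hb hA w []
  have hacc' : A.AcceptsAt w [] (t + 1) := by
    obtain ⟨⟨f, d, hq, hf⟩, -, -⟩ := hsim (t + 1)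
    have : f = true := hf.2 ⟨t, rfl, hacc⟩
    show (A.conf w [] (t + 1)).q.head? = some true
    rw [hq, this]
    rfl
  have hlast : M.run w (t + 1) = M.run w t := by
    show (M.next w (M.run w t)).getD (M.run w t) = _
    rw [hacc.1]
    rfl
  have hshort : ∀ x, Short M code E w b a (c * w.length) x →
      MHS.Short A E w [] b a (c * w.length) x := by
    rintro x ⟨d, hd, hd2⟩
    refine ⟨d, hd, fun i p hp => ?_⟩
    have h5 := hd2 i (p 0) (hp 0).1 (hp 0).2
    rw [(hsim x).2.2 i p]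
    unfold Pool.Agent.Helper31.MHS.nameW
    rw [cellW_one]
    exact h5
  set l : ℝ := (b : ℝ) + ((Nat.log 2 w.length : ℝ) + 1) with hl
  set n : ℝ := (w.length : ℝ) + 1 with hn
  have hn0 : 0 < n := by positivity
  have hl1 : 1 ≤ l := by
    have : (0 : ℝ) ≤ (b : ℝ) := Nat.cast_nonneg _
    have : (0 : ℝ) ≤ (Nat.log 2 w.length : ℝ) := Nat.cast_nonneg _
    linarith
  have hC : 0 ≤ C := by
    by_contra hneg
    push Not at hneg
    have : C * n < 0 := mul_neg_of_neg_of_pos hneg hn0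
    have : 0 < l ^ 3 := by positivity
    linarith
  have hCa : |C| = C := abs_of_nonneg hC
  have hs : ((c₀ + Nat.log 2 w.length : ℕ) : ℝ) + l ≤ ((c₀ : ℝ) + 2) * l := by
    push_cast
    have h5 : (0 : ℝ) ≤ (b : ℝ) := Nat.cast_nonneg _
    have h6 : (0 : ℝ) ≤ (c₀ : ℝ) := Nat.cast_nonneg _
    have h7 : (Nat.log 2 w.length : ℝ) ≤ l := by linarith
    nlinarith
  have hc0 : (0 : ℝ) ≤ (c₀ : ℝ) := Nat.cast_nonneg _
  refine ⟨t + 1, c₀ + Nat.log 2 w.length, b, a, r + 1, hacc', hc₀ w [] (t + 1), ?_, ?_, ?_, ?_, ?_⟩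
  · intro u hu i
    rw [(hsim u).2.1 i]
    intro j
    rcases Nat.lt_or_ge t u with h | h
    · obtain rfl : u = t + 1 := by omega
      rw [hlast]
      exact hbox t le_rfl i
    · exact hbox u h i
  · intro u v huv hv h
    rcases Nat.lt_or_ge t v with h5 | h5
    · obtain rfl : v = t + 1 := by omega
      rcases Nat.lt_or_ge t u with h6 | h6
      · omega
      · have := hstr u t h6 le_rfl fun x hx1 hx2 hx3 => h x hx1 (by omega) (hshort x hx3)
        omega
    · have := hstr u v huv h5 fun x hx1 hx2 hx3 => h x hx1 hx2 (hshort x hx3)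
      omega
  · have e1 : ((1 : ℕ) : ℝ) / (2 * ((1 : ℕ) : ℝ) - 1) = 1 := by norm_num
    rw [e1, Real.rpow_one, show (1 : ℝ) + 1 = ((2 : ℕ) : ℝ) by norm_num, Real.rpow_natCast]
    have h6 : l ^ 5 ≤ (l ^ 3) ^ 2 := by
      rw [← pow_mul]
      exact pow_le_pow_right₀ hl1 (by norm_num)
    have h7 : (l ^ 3) ^ 2 ≤ (C * n) ^ 2 := pow_le_pow_left₀ (by positivity) h2 2
    have h8 : ((r + 1 : ℕ) : ℝ) * l ^ 5 ≤ (C + C ^ 2) * n ^ 2 := by
      push_cast
      have : (C * n) ^ 2 = C ^ 2 * n ^ 2 := by ring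
      nlinarith
    calc ((r + 1 : ℕ) : ℝ) * (((c₀ + Nat.log 2 w.length : ℕ) : ℝ) + l) * l ^ 4
        ≤ ((r + 1 : ℕ) : ℝ) * (((c₀ : ℝ) + 2) * l) * l ^ 4 := by gcongr
      _ = ((c₀ : ℝ) + 2) * (((r + 1 : ℕ) : ℝ) * l ^ 5) := by ring
      _ ≤ ((c₀ : ℝ) + 2) * ((C + C ^ 2) * n ^ 2) := by gcongr
      _ ≤ (((c₀ : ℝ) + 2) * (|C| + C ^ 2) + |C|) * n ^ 2 := by
        rw [hCa]
        have : 0 ≤ C * n ^ 2 := by positivity
        nlinarith
  · calc (((c₀ + Nat.log 2 w.length : ℕ) : ℝ) + l) * l ^ 2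
        ≤ (((c₀ : ℝ) + 2) * l) * l ^ 2 := by gcongr
      _ = ((c₀ : ℝ) + 2) * l ^ 3 := by ring
      _ ≤ ((c₀ : ℝ) + 2) * (C * n) := by gcongr
      _ ≤ (((c₀ : ℝ) + 2) * (|C| + C ^ 2) + |C|) * n := by
        rw [hCa]
        have h9 : 0 ≤ C * n := by positivity
        have h10 : 0 ≤ ((c₀ : ℝ) + 2) * (C ^ 2 * n) := by positivity
        nlinarith
  · calc (a : ℝ) * l ^ 2 ≤ C * n := h3
      _ ≤ (((c₀ : ℝ) + 2) * (|C| + C ^ 2) + |C|) * n := by
        rw [hCa]
        have h9 : 0 ≤ ((c₀ : ℝ) + 2) * (C + C ^ 2) * n := by positivity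
        nlinarith

end Pool.Agent.Helper20.TMS
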